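import Mathlib

set_option autoImplicit false

namespace Pool.Agent.Results.MP_062ce2_co.StrongerThanU

open Finset

/-- A multigraph with vertex set `V` and edge set `E`: every edge has an unordered pair of ends. -/
structure Multigraph (V E : Type) where
  ends : E → Sym2 V

namespace Multigraph
variable {V E : Type} (G : Multigraph V E)

/-- No edge joins a vertex to itself. -/
def Loopless : Prop := ∀ e, ¬ (G.ends e).IsDiag

/-- The spanning subgraph `(V, A)` (only its components matter, so parallel edges are merged). -/
def span (A : Finset E) : SimpleGraph V := SimpleGraph.fromEdgeSet {s | ∃ e ∈ A, G.ends e = s}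

/-- `k(A)`. -/
noncomputable def k (A : Finset E) : ℕ := Nat.card (G.span A).ConnectedComponent

/-- `r(A) = |V| - k(A)`. -/
noncomputable def r (A : Finset E) : ℕ := Nat.card V - G.k A

/-- `|V(C)|` for a component `C` of `(V, A)`. -/
noncomputable def nV {A : Finset E} (C : (G.span A).ConnectedComponent) : ℕ := C.supp.ncard

/-- `|E(C)|` for a component `C` of `(V, A)`. -/
noncomputable def nE {A : Finset E} (C : (G.span A).ConnectedComponent) : ℕ :=
  {e | e ∈ A ∧ ∀ v ∈ G.ends e, v ∈ C.supp}.ncard

open Classical in
/-- The `U`-polynomial; `X (some i)` is `x_i` and `X none` is `y`. -/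
noncomputable def U [Fintype V] [Fintype E] : MvPolynomial (Option ℕ) ℤ :=
  ∑ A : Finset E, (∏ C : (G.span A).ConnectedComponent, MvPolynomial.X (some (G.nV C))) *
    (MvPolynomial.X none - 1) ^ (A.card - G.r A)

open Classical in
/-- The strong `U`-polynomial; `X (i, j)` is `z_{i,j}`. -/
noncomputable def strongU [Fintype V] [Fintype E] : MvPolynomial (ℕ × ℕ) ℤ :=
  ∑ A : Finset E, ∏ C : (G.span A).ConnectedComponent,
    MvPolynomial.X (G.nV C, G.nE C + 1 - G.nV C)

/-- Isomorphism of multigraphs. -/
def Isomorphic {V' E' : Type} (H : Multigraph V' E') : Prop :=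
  ∃ (φ : V ≃ V') (ψ : E ≃ E'), ∀ e, H.ends (ψ e) = (G.ends e).map φ

end Multigraph

open Multigraph

/-! ### Computation -/

/-- Labels of the five vertices and the number of chosen edges anchored at each vertex. -/
abbrev State := List ℕ × List ℕ

def lab (s : State) (v : Fin 5) : ℕ := s.1.getD v.val 0

def anc (s : State) (v : Fin 5) : ℕ := s.2.getD v.val 0

def step (s : State) (a b : Fin 5) : State :=
  (s.1.map (fun z => if z = lab s a then lab s b else z),
   [if a = 0 then anc s 0 + 1 else anc s 0, if a = 1 then anc s 1 + 1 else anc s 1,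
    if a = 2 then anc s 2 + 1 else anc s 2, if a = 3 then anc s 3 + 1 else anc s 3,
    if a = 4 then anc s 4 + 1 else anc s 4])

def init : State := ([0, 1, 2, 3, 4], [0, 0, 0, 0, 0])

def leaves : List (Fin 5 × Fin 5) → State → List State
  | [], s => [s]
  | (a, b) :: l, s => leaves l s ++ leaves l (step s a b)

def edG : List (Fin 5 × Fin 5) :=
  [(0, 2), (0, 3), (0, 3), (0, 3), (0, 4), (1, 3), (1, 3), (1, 4), (2, 4), (2, 4)]

def edH : List (Fin 5 × Fin 5) :=
  [(0, 2), (0, 3), (0, 4), (1, 3), (1, 3), (1, 3), (1, 4), (1, 4), (2, 4), (2, 4)]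

def size (s : State) (v : Fin 5) : ℕ := ((List.finRange 5).filter (fun u => lab s u = lab s v)).length

/-- representatives -/
def reps (s : State) : List (Fin 5) := (List.finRange 5).filter (fun v => lab s v = v.val)

def key (s : State) : List ℕ × ℕ :=
  (((reps s).map (size s)).insertionSort (· ≤ ·), anc s 0 + anc s 1 + anc s 2 + anc s 3 + anc s 4)

theorem perm_keys : ((leaves edG init).map key).Perm ((leaves edH init).map key) := by
  decide +kernel

/-- number of edges anchored in the block of `v` -/
def ne (s : State) (v : Fin 5) : ℕ :=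
  (((List.finRange 5).filter (fun u => lab s u = lab s v)).map (anc s)).sum

def wt (i j : ℕ) : ℤ := if i = 1 ∧ j = 0 ∨ i = 2 ∧ j = 1 then 1 else 0

def g2 (s : State) : ℤ := ((reps s).map (fun v => wt (size s v) (ne s v + 1 - size s v))).prod

theorem sumG : ((leaves edG init).map g2).sum = 10 := by decide +kernel

theorem sumH : ((leaves edH init).map g2).sum = 9 := by decide +kernel

/-! ### Correctness of the computation -/

section Correct

variable {m : ℕ} (es : Fin m → Fin 5 × Fin 5)

/-- the multigraph with edges `es` -/
def mk : Multigraph (Fin 5) (Fin m) := ⟨fun e => s((es e).1, (es e).2)⟩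

structure Inv (B : Finset (Fin m)) (s : State) : Prop where
  len : s.1.length = 5
  range : ∀ v, lab s v < 5
  idem : ∀ v w : Fin 5, w.val = lab s v → lab s w = lab s v
  sound : ∀ e ∈ B, lab s (es e).1 = lab s (es e).2
  complete : ∀ u v, lab s u = lab s v → ((mk es).span B).Reachable u v
  anc : ∀ v, anc s v = (B.filter (fun e => (es e).1 = v)).card

lemma lab_step {s : State} (h : s.1.length = 5) (a b v : Fin 5) :
    lab (step s a b) v = if lab s v = lab s a then lab s b else lab s v := by
  unfold lab step
  have hv : v.val < s.1.length := by rw [h]; exact v.2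
  simp only [List.getD_eq_getElem?_getD, List.getElem?_map, List.getElem?_eq_getElem hv,
    Option.map_some, Option.getD_some]
  rfl

lemma anc_step (s : State) (a b v : Fin 5) :
    anc (step s a b) v = if a = v then anc s v + 1 else anc s v := by
  fin_cases v <;> rfl

lemma inv_step {B : Finset (Fin m)} {s : State} (h : Inv es B s) {e : Fin m} (he : e ∉ B) :
    Inv es (insert e B) (step s (es e).1 (es e).2) := by
  set a := (es e).1 with ha
  set b := (es e).2 with hb
  have hL := lab_step h.len a b
  have hmono : (mk es).span B ≤ (mk es).span (insert e B) := by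
    apply SimpleGraph.fromEdgeSet_mono
    rintro x ⟨e', he', hx⟩
    exact ⟨e', Finset.mem_insert_of_mem he', hx⟩
  have hab : ((mk es).span (insert e B)).Reachable a b := by
    by_cases hne : a = b
    · rw [hne]
    · apply SimpleGraph.Adj.reachable
      rw [Multigraph.span, SimpleGraph.fromEdgeSet_adj]
      exact ⟨⟨e, Finset.mem_insert_self _ _, rfl⟩, hne⟩
  refine ⟨?_, ?_, ?_, ?_, ?_, ?_⟩
  · simp [step, h.len]
  · intro v
    rw [hL]
    split_ifs
    · exact h.range b
    · exact h.range v
  · intro v w hw
    rw [hL] at hw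
    rw [hL, hL]
    by_cases h1 : lab s v = lab s a
    · rw [if_pos h1] at hw ⊢
      have h2 := h.idem b w hw
      rw [h2]
      split_ifs <;> rfl
    · rw [if_neg h1] at hw ⊢
      have h2 := h.idem v w hw
      rw [h2, if_neg h1]
  · intro e' he'
    rw [hL, hL]
    rcases Finset.mem_insert.mp he' with rfl | he'
    · rw [← ha, ← hb, if_pos rfl]
      split_ifs <;> rfl
    · rw [h.sound e' he']
  · intro u v huv
    rw [hL, hL] at huv
    by_cases h1 : lab s u = lab s a <;> by_cases h2 : lab s v = lab s a
    · exact (h.complete u v (h1.trans h2.symm)).mono hmono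
    · rw [if_pos h1, if_neg h2] at huv
      exact ((h.complete u a h1).mono hmono).trans (hab.trans ((h.complete b v huv).mono hmono))
    · rw [if_neg h1, if_pos h2] at huv
      exact ((h.complete u b huv).mono hmono).trans
        (hab.symm.trans ((h.complete a v h2.symm).mono hmono))
    · rw [if_neg h1, if_neg h2] at huv
      exact (h.complete u v huv).mono hmono
  · intro v
    rw [anc_step, h.anc v, Finset.filter_insert]
    by_cases h1 : a = v
    · rw [if_pos h1, if_pos (by rw [← ha]; exact h1), Finset.card_insert_of_notMem]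
      intro h2
      exact he (Finset.mem_filter.mp h2).1
    · rw [if_neg h1, if_neg (by rw [← ha]; exact h1)]

lemma inv_init : Inv es ∅ init := by
  have hl : ∀ v : Fin 5, lab init v = v.val := by decide
  have ha : ∀ v : Fin 5, anc init v = 0 := by decide
  refine ⟨rfl, ?_, ?_, ?_, ?_, ?_⟩
  · intro v; rw [hl]; exact v.2
  · intro v w hw; rw [hl] at hw; rw [Fin.ext hw]
  · intro e he; exact absurd he (Finset.notMem_empty e)
  · intro u v huv
    rw [hl, hl] at huv
    rw [Fin.ext huv]
  · intro v; rw [ha]; simp

lemma reach_iff {B : Finset (Fin m)} {s : State} (h : Inv es B s) (u v : Fin 5) :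
    ((mk es).span B).Reachable u v ↔ lab s u = lab s v := by
  constructor
  · rintro ⟨p⟩
    induction p with
    | nil => rfl
    | @cons u v w hadj _ ih =>
      rw [← ih]
      rw [Multigraph.span, SimpleGraph.fromEdgeSet_adj] at hadj
      obtain ⟨⟨e, he, heq⟩, _⟩ := hadj
      have heq' : s((es e).1, (es e).2) = s(u, v) := heq
      have hs := h.sound e he
      rcases Sym2.eq_iff.mp heq' with ⟨h1, h2⟩ | ⟨h1, h2⟩
      · rw [← h1, ← h2]; exact hs
      · rw [← h1, ← h2]; exact hs.symm
  · exact h.complete u v

lemma prod_comp_eq {M : Type*} [CommMonoid M] {B : Finset (Fin m)} {s : State} (h : Inv es B s)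
    (inst : Fintype ((mk es).span B).ConnectedComponent)
    (F : ((mk es).span B).ConnectedComponent → M) (F' : Fin 5 → M)
    (hF : ∀ v, F (((mk es).span B).connectedComponentMk v) = F' v) :
    ∏ C, F C = ((reps s).map F').prod := by
  classical
  have hnd : (reps s).Nodup := (List.nodup_finRange 5).filter _
  rw [← List.prod_toFinset _ hnd]
  symm
  refine Finset.prod_bij (fun v _ => ((mk es).span B).connectedComponentMk v) ?_ ?_ ?_ ?_
  · intro v _; exact Finset.mem_univ _
  · intro v hv w hw hvw
    have h1 := (reach_iff es h v w).mp (SimpleGraph.ConnectedComponent.exact hvw)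
    have hv' : lab s v = v.val := by
      have := List.mem_toFinset.mp hv
      simpa [reps] using this
    have hw' : lab s w = w.val := by
      have := List.mem_toFinset.mp hw
      simpa [reps] using this
    rw [hv', hw'] at h1
    exact Fin.ext h1
  · intro C _
    obtain ⟨u, rfl⟩ := C.exists_rep
    let w : Fin 5 := ⟨lab s u, h.range u⟩
    have hw : lab s w = lab s u := h.idem u w rfl
    refine ⟨w, ?_, ?_⟩
    · rw [List.mem_toFinset]
      simp only [reps, List.mem_filter, List.mem_finRange, true_and, decide_eq_true_eq]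
      exact hw
    · exact SimpleGraph.ConnectedComponent.sound ((reach_iff es h w u).mpr hw)
  · intro v _
    exact (hF v).symm

lemma k_eq {B : Finset (Fin m)} {s : State} (h : Inv es B s) : (mk es).k B = (reps s).length := by
  classical
  unfold Multigraph.k
  rw [Nat.card_eq_fintype_card]
  have := prod_comp_eq es h (M := Multiplicative ℕ) inferInstance (fun _ => Multiplicative.ofAdd 1)
    (fun _ => Multiplicative.ofAdd 1) (fun _ => rfl)
  have h2 := congrArg Multiplicative.toAdd this
  simpa using h2

lemma supp_eq {B : Finset (Fin m)} {s : State} (h : Inv es B s) (v : Fin 5) :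
    (((mk es).span B).connectedComponentMk v).supp =
      (((List.finRange 5).filter (fun u => lab s u = lab s v)).toFinset : Set (Fin 5)) := by
  ext u
  rw [SimpleGraph.ConnectedComponent.mem_supp_iff, SimpleGraph.ConnectedComponent.eq,
    reach_iff es h]
  simp

lemma nV_eq {B : Finset (Fin m)} {s : State} (h : Inv es B s) (v : Fin 5) :
    (mk es).nV (((mk es).span B).connectedComponentMk v) = size s v := by
  unfold Multigraph.nV size
  rw [supp_eq es h, Set.ncard_coe_finset, List.toFinset_card_of_nodup
    ((List.nodup_finRange 5).filter _)]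

lemma nE_eq {B : Finset (Fin m)} {s : State} (h : Inv es B s) (v : Fin 5) :
    (mk es).nE (((mk es).span B).connectedComponentMk v) = ne s v := by
  classical
  unfold Multigraph.nE ne
  have h1 : {e | e ∈ B ∧ ∀ x ∈ (mk es).ends e,
      x ∈ (((mk es).span B).connectedComponentMk v).supp} =
      ((B.filter (fun e => (es e).1 ∈
        ((List.finRange 5).filter (fun u => lab s u = lab s v)).toFinset) : Finset (Fin m)) :
          Set (Fin m)) := by
    ext e
    simp only [Set.mem_ofPred_eq, Finset.coe_filter]
    refine and_congr_right (fun he => ?_)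
    constructor
    · intro hx
      have := hx (es e).1 (Sym2.mem_mk_left _ _)
      rw [supp_eq es h] at this
      exact this
    · intro hx x hxe
      rw [supp_eq es h]
      have hx' : lab s (es e).1 = lab s v := by simpa using hx
      rcases Sym2.mem_iff.mp hxe with rfl | rfl
      · simpa using hx'
      · have := h.sound e he
        simp only [List.coe_toFinset, List.mem_filter, List.mem_finRange, true_and,
          decide_eq_true_eq, Set.mem_ofPred_eq]
        rw [← this]; exact hx'
  rw [h1, Set.ncard_coe_finset]
  rw [← List.sum_toFinset _ ((List.nodup_finRange 5).filter _)]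
  rw [Finset.card_eq_sum_card_fiberwise (f := fun e => (es e).1)
    (t := ((List.finRange 5).filter (fun u => lab s u = lab s v)).toFinset)]
  · refine Finset.sum_congr rfl ?_
    intro u hu
    rw [h.anc u]
    congr 1
    ext e
    simp only [Finset.mem_filter]
    constructor
    · rintro ⟨⟨h2, _⟩, h3⟩; exact ⟨h2, h3⟩
    · rintro ⟨h2, h3⟩; exact ⟨⟨h2, by rw [h3]; exact hu⟩, h3⟩
  · intro e he
    exact (Finset.mem_filter.mp he).2

lemma card_eq {B : Finset (Fin m)} {s : State} (h : Inv es B s) :
    B.card = anc s 0 + anc s 1 + anc s 2 + anc s 3 + anc s 4 := by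
  rw [Finset.card_eq_sum_card_fiberwise (f := fun e => (es e).1) (t := Finset.univ)
    (fun e _ => Finset.mem_univ _)]
  have : ∀ v : Fin 5, (B.filter (fun e => (es e).1 = v)).card = anc s v := fun v => (h.anc v).symm
  simp only [this, Fin.sum_univ_five]

lemma sum_leaves {R : Type*} [AddCommMonoid R] (f : Finset (Fin m) → R) (g : State → R)
    (hfg : ∀ A s, Inv es A s → f A = g s) :
    ∀ (l : List (Fin m)) (B : Finset (Fin m)) (s : State), l.Nodup → (∀ e ∈ l, e ∉ B) →
      Inv es B s → ∑ A ∈ l.toFinset.powerset, f (A ∪ B) = ((leaves (l.map es) s).map g).sum := by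
  intro l
  induction l with
  | nil =>
    intro B s _ _ h
    simp [leaves, hfg B s h]
  | cons e l ih =>
    intro B s hnd hB h
    have hel : e ∉ l.toFinset := by
      rw [List.mem_toFinset]; exact (List.nodup_cons.mp hnd).1
    have heB : e ∉ B := hB e (List.mem_cons_self)
    rw [List.toFinset_cons, Finset.sum_powerset_insert hel]
    rw [ih B s (List.nodup_cons.mp hnd).2 (fun x hx => hB x (List.mem_cons_of_mem _ hx)) h]
    have h2 : ∀ A ∈ l.toFinset.powerset, f (insert e A ∪ B) = f (A ∪ insert e B) := by
      intro A _
      rw [Finset.insert_union, Finset.union_insert]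
    rw [Finset.sum_congr rfl h2, ih (insert e B) (step s (es e).1 (es e).2)
      (List.nodup_cons.mp hnd).2 ?_ (inv_step es h heB)]
    · rw [List.map_cons]
      show _ = (((leaves (l.map es) s) ++ (leaves (l.map es)
        (step s (es e).1 (es e).2))).map g).sum
      rw [List.map_append, List.sum_append]
    · intro x hx hxB
      rcases Finset.mem_insert.mp hxB with rfl | hxB
      · exact (List.nodup_cons.mp hnd).1 hx
      · exact hB x (List.mem_cons_of_mem _ hx) hxB

lemma sum_all {R : Type*} [AddCommMonoid R] (f : Finset (Fin m) → R) (g : State → R)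
    (hfg : ∀ A s, Inv es A s → f A = g s) :
    ∑ A : Finset (Fin m), f A = ((leaves ((List.finRange m).map es) init).map g).sum := by
  rw [← sum_leaves es f g hfg (List.finRange m) ∅ init (List.nodup_finRange m)
    (fun e _ => Finset.notMem_empty e) (inv_init es)]
  rw [List.toFinset_finRange, Finset.powerset_univ]
  refine Finset.sum_congr rfl ?_
  intro A _
  rw [Finset.union_empty]

/-- the summand of `U` in terms of the key -/
noncomputable def gU (κ : List ℕ × ℕ) : MvPolynomial (Option ℕ) ℤ :=
  (κ.1.map (fun i => MvPolynomial.X (some i))).prod *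
    (MvPolynomial.X none - 1) ^ (κ.2 - (5 - κ.1.length))

lemma U_eq : (mk es).U =
    (((leaves ((List.finRange m).map es) init).map key).map gU).sum := by
  classical
  rw [List.map_map]
  unfold Multigraph.U
  apply sum_all
  intro A s h
  have e1 := fun inst => prod_comp_eq es h inst
    (fun C => (MvPolynomial.X (some ((mk es).nV C)) : MvPolynomial (Option ℕ) ℤ))
    (fun v => (MvPolynomial.X (some (size s v)) : MvPolynomial (Option ℕ) ℤ))
    (fun v => by rw [nV_eq es h])
  rw [e1]
  simp only [Function.comp, gU, key]
  congr 1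
  · have hp := List.perm_insertionSort (· ≤ ·) ((reps s).map (size s))
    rw [(hp.map (fun i => (MvPolynomial.X (some i) : MvPolynomial (Option ℕ) ℤ))).prod_eq,
      List.map_map]
    rfl
  · rw [List.length_insertionSort, List.length_map]
    unfold Multigraph.r
    rw [k_eq es h, card_eq es h, Nat.card_fin]

lemma strongU_eval : MvPolynomial.eval (fun p : ℕ × ℕ => wt p.1 p.2) (mk es).strongU =
    ((leaves ((List.finRange m).map es) init).map g2).sum := by
  classical
  unfold Multigraph.strongU
  rw [map_sum]
  apply sum_all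
  intro A s h
  rw [map_prod]
  exact prod_comp_eq es h _
    (fun C => (MvPolynomial.eval fun p : ℕ × ℕ => wt p.1 p.2)
      (MvPolynomial.X ((mk es).nV C, (mk es).nE C + 1 - (mk es).nV C)))
    (fun v => wt (size s v) (ne s v + 1 - size s v))
    (fun v => by rw [MvPolynomial.eval_X, nV_eq es h, nE_eq es h])

end Correct

/-! ### The two graphs -/

def esG : Fin 10 → Fin 5 × Fin 5 := fun i => edG.get i

def esH : Fin 10 → Fin 5 × Fin 5 := fun i => edH.get i

lemma iso_mult {G H : Multigraph (Fin 5) (Fin 10)} {φ : Fin 5 ≃ Fin 5} {ψ : Fin 10 ≃ Fin 10}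
    (h : ∀ e, H.ends (ψ e) = (G.ends e).map φ) (u v : Fin 5) :
    (univ.filter (fun e => H.ends e = s(φ u, φ v))).card =
      (univ.filter (fun e => G.ends e = s(u, v))).card := by
  have : univ.filter (fun e => H.ends e = s(φ u, φ v)) =
      (univ.filter (fun e => G.ends e = s(u, v))).map ψ.toEmbedding := by
    ext e
    simp only [Finset.mem_filter, Finset.mem_univ, true_and, Finset.mem_map,
      Equiv.coe_toEmbedding]
    constructor
    · intro he
      refine ⟨ψ.symm e, ?_, by simp⟩
      have h1 := h (ψ.symm e)
      rw [Equiv.apply_symm_apply, he] at h1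
      exact (Sym2.map.injective φ.injective (by rw [← h1]; rfl))
    · rintro ⟨x, hx, rfl⟩
      rw [h x, hx]; rfl
  rw [this, Finset.card_map]

lemma iso_deg {G H : Multigraph (Fin 5) (Fin 10)} {φ : Fin 5 ≃ Fin 5} {ψ : Fin 10 ≃ Fin 10}
    (h : ∀ e, H.ends (ψ e) = (G.ends e).map φ) (u : Fin 5) :
    (univ.filter (fun e => φ u ∈ H.ends e)).card = (univ.filter (fun e => u ∈ G.ends e)).card := by
  have : univ.filter (fun e => φ u ∈ H.ends e) =
      (univ.filter (fun e => u ∈ G.ends e)).map ψ.toEmbedding := by
    ext e
    simp only [Finset.mem_filter, Finset.mem_univ, true_and, Finset.mem_map,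
      Equiv.coe_toEmbedding]
    constructor
    · intro he
      refine ⟨ψ.symm e, ?_, by simp⟩
      have h1 := h (ψ.symm e)
      rw [Equiv.apply_symm_apply] at h1
      rw [h1, Sym2.mem_map] at he
      obtain ⟨x, hx, hxu⟩ := he
      rw [← φ.injective hxu]; exact hx
    · rintro ⟨x, hx, rfl⟩
      rw [h x, Sym2.mem_map]
      exact ⟨u, hx, rfl⟩
  rw [this, Finset.card_map]

/-- There are two non-isomorphic loopless graphs (5 vertices, 10 edges) with the same
`U`-polynomial but different strong `U`-polynomials. -/
theorem result : ∃ G H : Multigraph (Fin 5) (Fin 10),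
    G.Loopless ∧ H.Loopless ∧ ¬ G.Isomorphic H ∧ G.U = H.U ∧ G.strongU ≠ H.strongU := by
  have eG : (List.finRange 10).map esG = edG := by decide
  have eH : (List.finRange 10).map esH = edH := by decide
  refine ⟨mk esG, mk esH, ?_, ?_, ?_, ?_, ?_⟩
  · show ∀ e : Fin 10, ¬ (s((esG e).1, (esG e).2) : Sym2 (Fin 5)).IsDiag
    decide
  · show ∀ e : Fin 10, ¬ (s((esH e).1, (esH e).2) : Sym2 (Fin 5)).IsDiag
    decide
  · rintro ⟨φ, ψ, h⟩
    have h1 := iso_mult h 0 3
    have h2 := iso_deg h 0
    have h3 := iso_deg h 3
    have c1 : (univ.filter (fun e : Fin 10 => (mk esG).ends e = s(0, 3))).card = 3 := by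
      decide +kernel
    have c2 : (univ.filter (fun e : Fin 10 => (0 : Fin 5) ∈ (mk esG).ends e)).card = 5 := by
      decide +kernel
    have c3 : (univ.filter (fun e : Fin 10 => (3 : Fin 5) ∈ (mk esG).ends e)).card = 5 := by
      decide +kernel
    have key : ∀ u v : Fin 5, (univ.filter (fun e : Fin 10 => (mk esH).ends e = s(u, v))).card = 3 →
        (univ.filter (fun e : Fin 10 => u ∈ (mk esH).ends e)).card = 5 →
        (univ.filter (fun e : Fin 10 => v ∈ (mk esH).ends e)).card = 5 → False := by
      decide +kernel
    exact key _ _ (h1.trans c1) (h2.trans c2) (h3.trans c3)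
  · rw [U_eq, U_eq, eG, eH]
    exact (perm_keys.map gU).sum_eq
  · intro heq
    have h1 := strongU_eval esG
    have h2 := strongU_eval esH
    rw [eG, sumG] at h1
    rw [eH, sumH] at h2
    rw [heq, h2] at h1
    norm_num at h1

end Pool.Agent.Results.MP_062ce2_co.StrongerThanU
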